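import Mathlib

/-!
# No local map predicts the local components of global liftings from `PGSp(4)`

`F` is a non-archimedean local field of characteristic zero, `K` a number field with a place `p`
such that `K_p = F`, the group is `PGSp(4)` (split, so `Γ` is trivial), its dual group is `Sp(4, ℂ)`
and `ρ : Sp(4, ℂ) → GL(4, ℂ)` is the inclusion. The non-generic tempered representation
`VIb = τ(T, ν^{-1/2})` of `PGSp(4, F)` lies in the tempered `L`-packet `{VIa, VIb}` with parameter
`St ⊕ St` and in the Saito-Kurokawa `A`-packet `{VIc, VIb}`. By Arthur's multiplicity formula it is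
the local component of automorphic representations of both types, whose liftings have different
components at `p`. So there is no map `Irr (PGSp(4, F)) → Irr (GL(4, F))` as in Q1.
-/

set_option autoImplicit false

namespace Pool.Agent.Results.MP_5ae62c_nt.OverlappingPackets

/-- The objects which occur in Q1 for the group `PGSp(4)` over the number field `K` and the
inclusion `ρ : Sp(4, ℂ) → GL(4, ℂ)`. -/
structure Objects where
  /-- the finite places of `K` -/
  Place : Type
  /-- the irreducible smooth representations of `PGSp(4, K_v)` -/
  Irr : Place → Type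
  /-- the essentially square-integrable irreducible representations of `GL(m, K_v)`, `m ≥ 1`; by the
  Langlands classification an irreducible smooth representation of `GL(n, K_v)` is the isobaric sum
  of a unique multiset of them, and we identify it with this multiset -/
  Sq : Place → Type
  /-- the automorphic representations of `PGSp(4, 𝔸_K)` -/
  Aut : Type
  /-- their local components -/
  component : ∀ v, Aut → Irr v
  /-- the cuspidal automorphic representations of `GL(m, 𝔸_K)`, `m ≥ 1`; an isobaric automorphic
  representation is the isobaric sum of a unique multiset of them (Jacquet, Shalika) -/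
  Cusp : Type
  /-- their local components -/
  cuspComponent : ∀ v, Cusp → Multiset (Sq v)
  /-- `IsLifting π Π`: the isobaric automorphic representation `Π` of `GL(4, 𝔸_K)` is a global
  lifting of `π` with respect to `ρ` -/
  IsLifting : Aut → Multiset Cusp → Prop

namespace Objects

variable (O : Objects)

/-- The local component of an isobaric sum is the isobaric sum of the local components. -/
def isobaricComponent (v : O.Place) (P : Multiset O.Cusp) : Multiset (O.Sq v) :=
  (P.map (O.cuspComponent v)).sum

/-- The map of Q1 for the local field `K_p`, as far as the global field `K` is concerned: a map from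
the irreducible representations of `PGSp(4, K_p)` to those of `GL(4, K_p)` which predicts the
components at `p` of all the global liftings. -/
def LocalLifting (p : O.Place) (l : O.Irr p → Multiset (O.Sq p)) : Prop :=
  ∀ (π : O.Aut) (P : Multiset O.Cusp), O.IsLifting π P →
    O.isobaricComponent p P = l (O.component p π)

/-- The published theorems. -/
structure KnownTheorems where
  /-- the Steinberg representation of `PGL(2, K_v)` -/
  St : ∀ v, O.Sq v
  /-- the representation `VIb` of `PGSp(4, K_v)` -/
  VIb : ∀ v, O.Irr v
  /-- the cuspidal automorphic representations of `PGL(2, 𝔸_K)` -/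
  PGL2 : Set O.Cusp
  /-- the root number `ε(1/2, μ)` -/
  rootNumber : O.Cusp → ℤ
  rootNumber_eq : ∀ μ ∈ PGL2, rootNumber μ = 1 ∨ rootNumber μ = -1
  /-- the character `|·|^{1/2}` of `GL(1, 𝔸_K)` and its inverse -/
  normHalf : O.Cusp
  normNegHalf : O.Cusp
  /-- their local components `|·|^{1/2}` and `|·|^{-1/2}` -/
  localHalf : ∀ v, O.Sq v
  localNegHalf : ∀ v, O.Sq v
  component_half : ∀ v, O.cuspComponent v normHalf = {localHalf v}
  component_negHalf : ∀ v, O.cuspComponent v normNegHalf = {localNegHalf v}
  /-- Arthur's multiplicity formula for the parameters of Saito-Kurokawa type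
  `(μ ⊠ 1) ⊞ (1 ⊠ S_2)` (Piatetski-Shapiro, Arthur, Schmidt): the member of the packet with the
  component `VIb` at the places `v ∈ T`, where `μ` is Steinberg, and the base point of the local
  packet elsewhere is automorphic if and only if the sign `(-1)^{|T|}` is the root number of `μ` -/
  saitoKurokawa : ∀ μ ∈ PGL2, ∀ T : Finset O.Place, (∀ v ∈ T, O.cuspComponent v μ = {St v}) →
    (-1) ^ T.card = rootNumber μ →
    ∃ π : O.Aut, (∀ v ∈ T, O.component v π = VIb v) ∧ O.IsLifting π {μ, normHalf, normNegHalf}
  /-- Arthur's multiplicity formula for the parameters `μ₁ ⊞ μ₂` of Yoshida type -/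
  yoshida : ∀ μ₁ ∈ PGL2, ∀ μ₂ ∈ PGL2, μ₁ ≠ μ₂ → ∀ T : Finset O.Place,
    (∀ v ∈ T, O.cuspComponent v μ₁ = {St v} ∧ O.cuspComponent v μ₂ = {St v}) →
    (-1 : ℤ) ^ T.card = 1 →
    ∃ π : O.Aut, (∀ v ∈ T, O.component v π = VIb v) ∧ O.IsLifting π {μ₁, μ₂}
  /-- for each place `p` there are a place `q ≠ p` and two different cuspidal representations which
  are Steinberg at `p` and `q` (trace formula, Jacquet-Langlands) -/
  exist : ∀ p : O.Place, ∃ q ≠ p, ∃ μ₁ ∈ PGL2, ∃ μ₂ ∈ PGL2, μ₁ ≠ μ₂ ∧
    O.cuspComponent p μ₁ = {St p} ∧ O.cuspComponent p μ₂ = {St p} ∧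
    O.cuspComponent q μ₁ = {St q} ∧ O.cuspComponent q μ₂ = {St q}

end Objects

/-- There is no local lifting, at any finite place `p` of `K`. -/
theorem result (O : Objects) (known : O.KnownTheorems) (p : O.Place) :
    ¬ ∃ l : O.Irr p → Multiset (O.Sq p), O.LocalLifting p l := by
  classical
  rintro ⟨l, hl⟩
  obtain ⟨q, hq, μ₁, h₁, μ₂, h₂, hne, hp1, hp2, hq1, hq2⟩ := known.exist p
  -- the Yoshida lift
  obtain ⟨π, hπ, hP⟩ := known.yoshida μ₁ h₁ μ₂ h₂ hne {p, q} (by
    intro v hv
    rw [Finset.mem_insert, Finset.mem_singleton] at hv
    rcases hv with rfl | rfl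
    · exact ⟨hp1, hp2⟩
    · exact ⟨hq1, hq2⟩) (by
    rw [Finset.card_pair (Ne.symm hq)]
    norm_num)
  have hY := hl π _ hP
  rw [hπ p (Finset.mem_insert_self p _)] at hY
  -- the Saito-Kurokawa lift
  have hSK : ∃ π : O.Aut, O.component p π = known.VIb p ∧
      O.IsLifting π {μ₁, known.normHalf, known.normNegHalf} := by
    rcases known.rootNumber_eq μ₁ h₁ with hε | hε
    · obtain ⟨π, hπ, hP⟩ := known.saitoKurokawa μ₁ h₁ {p, q} (by
        intro v hv
        rw [Finset.mem_insert, Finset.mem_singleton] at hv
        rcases hv with rfl | rfl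
        · exact hp1
        · exact hq1) (by
        rw [Finset.card_pair (Ne.symm hq), hε]
        norm_num)
      exact ⟨π, hπ p (Finset.mem_insert_self p _), hP⟩
    · obtain ⟨π, hπ, hP⟩ := known.saitoKurokawa μ₁ h₁ {p} (by
        intro v hv
        rw [Finset.mem_singleton] at hv
        rw [hv]
        exact hp1) (by
        rw [Finset.card_singleton, hε]
        norm_num)
      exact ⟨π, hπ p (Finset.mem_singleton_self p), hP⟩
  obtain ⟨π', hπ', hP'⟩ := hSK
  have hS := hl π' _ hP'
  rw [hπ', ← hY] at hS
  -- the components at `p` are different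
  have hcard := congrArg Multiset.card hS
  simp [Objects.isobaricComponent, hp1, hp2, known.component_half,
    known.component_negHalf] at hcard

end Pool.Agent.Results.MP_5ae62c_nt.OverlappingPackets
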